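import Mathlib
import Pool.Agent.Lib.MP_c22f6b_an.Basic

set_option autoImplicit false

namespace Pool.Agent.FS.Gauge22

open MeasureTheory Metric
open scoped ENNReal
open Pool.Agent.Lib.MP_c22f6b_an

/-- One scale: a measure dominated by the gauge and an eigenfunction with ratio `N / 4`. -/
lemma one_scale (d : ℕ) (hd : 2 ≤ d) (h : ℝ → ℝ) (r₁ : ℝ)
    (hr₁ : ∀ r, 0 < r → r < r₁ → r ^ d ≤ h r)
    (hA : ∀ A : ℝ, ∃ r₀, 0 < r₀ ∧ ∀ r, 0 < r → r < r₀ → A ≤ h r / r ^ d) (N : ℕ) :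
    ∃ ν : Measure (Tor d), IsProbabilityMeasure ν ∧
      (∀ (x₀ : Tor d) (r : ℝ), 0 < r → r < r₁ →
        ν (closedBall x₀ r) ≤ ENNReal.ofReal (6 ^ d * h r)) ∧
      ∃ (n : ℕ) (S : Finset (Fin d → ℤ)), S.card = N ∧ (∀ k ∈ S, ∑ i, k i ^ 2 = (n : ℤ)) ∧
        ∀ᵐ z ∂ν, (N : ℝ) / 2 ≤ ‖∑ k ∈ S, UnitAddTorus.mFourier k z‖ := by
  obtain ⟨n, S, hS, hSn⟩ := exists_lattice_points d hd N
  have hcont : ∀ᶠ w in nhds (0 : Tor d), ∀ k ∈ S, ‖UnitAddTorus.mFourier k w - 1‖ ≤ 1 / 2 := by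
    rw [Filter.eventually_all_finset]
    intro k _
    have h1 : ContinuousAt (fun w : Tor d => ‖UnitAddTorus.mFourier k w - 1‖) 0 := by
      apply Continuous.continuousAt
      exact ((UnitAddTorus.mFourier k).continuous.sub continuous_const).norm
    have h2 : ‖UnitAddTorus.mFourier k (0 : Tor d) - 1‖ < 1 / 2 := by
      simp [UnitAddTorus.mFourier]
    exact (h1.eventually (gt_mem_nhds h2)).mono fun w hw => hw.le
  obtain ⟨δ₀, hδ₀, hball⟩ := Metric.nhds_basis_closedBall.eventually_iff.mp hcont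
  set δ : ℝ := min δ₀ (1 / 2) with hδdef
  have hδ : 0 < δ := lt_min hδ₀ (by norm_num)
  have hδ1 : δ ≤ 1 / 2 := min_le_right _ _
  have hδ2 : δ ≤ δ₀ := min_le_left _ _
  obtain ⟨r₀, hr₀pos, hr₀⟩ := hA (1 / δ ^ d)
  obtain ⟨m, hm⟩ := exists_nat_gt (max (1 / r₀) 1)
  have hm1 : (1 : ℝ) < m := lt_of_le_of_lt (le_max_right _ _) hm
  have hm2 : 1 / r₀ < m := lt_of_le_of_lt (le_max_left _ _) hm
  have hmpos : (0 : ℝ) < m := by linarith
  have hm0 : 0 < m := by exact_mod_cast hmpos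
  have hm3 : 1 / (m : ℝ) ≤ r₀ := by
    rw [div_lt_iff₀ hr₀pos] at hm2
    rw [div_le_iff₀ hmpos]
    linarith
  have hρ1 : δ / m ≤ 1 / m := by gcongr; linarith
  have hρ2 : 2 * (δ / m) ≤ 1 := by
    have : δ / m ≤ δ := div_le_self hδ.le hm1.le
    linarith
  obtain ⟨ν, hν, hνae, hνreg⟩ := exists_periodic_measure d m hm0 (δ / m) (by positivity) hρ2
  refine ⟨ν, hν, ?_, m ^ 2 * n, S.image (fun k => (m : ℤ) • k), ?_, ?_, ?_⟩
  · intro x₀ r hr h1
    refine le_trans (hνreg x₀ r hr) (ENNReal.ofReal_le_ofReal ?_)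
    rcases le_or_gt (1 / (m : ℝ)) r with h2 | h2
    · calc (2 * (r + δ / m + 1 / m)) ^ d * min 1 ((r / (δ / m)) ^ d)
          ≤ (6 * r) ^ d * 1 := by
            gcongr ?_ ^ d * ?_
            · linarith
            · exact min_le_left _ _
        _ = 6 ^ d * r ^ d := by rw [mul_one, mul_pow]
        _ ≤ 6 ^ d * h r := by
            gcongr 6 ^ d * ?_
            exact hr₁ r hr h1
    · have h3 := hr₀ r hr (h2.trans_le hm3)
      calc (2 * (r + δ / m + 1 / m)) ^ d * min 1 ((r / (δ / m)) ^ d)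
          ≤ (6 * (1 / m)) ^ d * (r / (δ / m)) ^ d := by
            gcongr ?_ ^ d * ?_
            · linarith
            · exact min_le_right _ _
        _ = 6 ^ d * (r ^ d / δ ^ d) := by
            rw [← mul_pow, ← div_pow, ← mul_pow]
            congr 1
            field_simp
        _ ≤ 6 ^ d * h r := by
            gcongr 6 ^ d * ?_
            rw [le_div_iff₀ (by positivity)] at h3
            rwa [div_eq_mul_one_div, mul_comm]
  · rw [Finset.card_image_of_injective _ (smul_right_injective _ (by exact_mod_cast hm0.ne')), hS]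
  · intro v hv
    obtain ⟨k, hk, rfl⟩ := Finset.mem_image.mp hv
    simp only [Pi.smul_apply, smul_eq_mul, mul_pow, ← Finset.mul_sum, hSn k hk]
    push_cast
    ring
  · filter_upwards [hνae] with z hz
    rw [Finset.sum_image (fun a _ b _ h =>
      smul_right_injective _ (by exact_mod_cast hm0.ne' : (m : ℤ) ≠ 0) h)]
    simp_rw [mFourier_smul]
    have hz' : m • z ∈ closedBall (0 : Tor d) δ₀ := by
      rw [mem_closedBall, dist_zero_right]
      rw [mul_div_cancel₀ _ hmpos.ne'] at hz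
      linarith
    have h1 := hball hz'
    have h2 : ‖∑ k ∈ S, (UnitAddTorus.mFourier k (m • z) - 1)‖ ≤ (N : ℝ) / 2 := by
      refine le_trans (norm_sum_le _ _) (le_trans (Finset.sum_le_sum h1) ?_)
      rw [Finset.sum_const, hS, nsmul_eq_mul]
      linarith
    rw [Finset.sum_sub_distrib, Finset.sum_const, hS, nsmul_eq_mul, mul_one] at h2
    have h3 := norm_sub_norm_le (N : ℂ) (∑ k ∈ S, UnitAddTorus.mFourier k (m • z))
    rw [norm_sub_rev, Complex.norm_natCast] at h3
    linarith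

lemma sub_ball {d : ℕ} (x₀ : Tor d) {r : ℝ} (hr : 0 < r) :
    {x : Tor d | Real.sqrt (∑ i, ‖x i - x₀ i‖ ^ 2) < r} ⊆ closedBall x₀ r := by
  intro x hx
  rw [mem_closedBall, dist_pi_le_iff hr.le]
  intro i
  rw [dist_eq_norm]
  refine le_trans ?_ (le_of_lt hx)
  apply Real.le_sqrt_of_sq_le
  exact Finset.single_le_sum (f := fun i => ‖x i - x₀ i‖ ^ 2) (fun i _ => by positivity)
    (Finset.mem_univ i)

lemma ball_sub {d : ℕ} (hd : 2 ≤ d) (x₀ : Tor d) {r : ℝ} (hr : 0 < r) :
    closedBall x₀ (r / (2 * d)) ⊆ {x : Tor d | Real.sqrt (∑ i, ‖x i - x₀ i‖ ^ 2) < r} := by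
  intro x hx
  have hd' : (2 : ℝ) ≤ d := by exact_mod_cast hd
  have hρ : 0 < r / (2 * d) := by positivity
  rw [mem_closedBall, dist_pi_le_iff hρ.le] at hx
  have h1 : ∑ i, ‖x i - x₀ i‖ ^ 2 ≤ d * (r / (2 * d)) ^ 2 := by
    calc ∑ i, ‖x i - x₀ i‖ ^ 2 ≤ ∑ _i : Fin d, (r / (2 * d)) ^ 2 :=
          Finset.sum_le_sum fun i _ => by
            have := hx i
            rw [dist_eq_norm] at this
            gcongr
      _ = d * (r / (2 * d)) ^ 2 := by
          rw [Finset.sum_const, Finset.card_univ, Fintype.card_fin, nsmul_eq_mul]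
  show Real.sqrt _ < r
  rw [Real.sqrt_lt' hr]
  refine h1.trans_lt ?_
  have h2 : (d : ℝ) * (r / (2 * d)) ^ 2 = r ^ 2 / (4 * d) := by field_simp; ring
  rw [h2]
  exact div_lt_self (by positivity) (by linarith)

/-- A gauge much larger than `r ^ d` allows a measure without the trace inequality. -/
theorem fails (d : ℕ) (hd : 2 ≤ d) (h : ℝ → ℝ) (hpos : ∀ r, 0 < r → 0 < h r)
    (hmono : MonotoneOn h (Set.Ioi 0))
    (hA : ∀ A : ℝ, ∃ r₀, 0 < r₀ ∧ ∀ r, 0 < r → r < r₀ → A ≤ h r / r ^ d) :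
    ∃ μ : Measure (Fin d → UnitAddCircle), IsProbabilityMeasure μ ∧
      (∃ C : ℝ, ∀ (x₀ : Fin d → UnitAddCircle) (r : ℝ), 0 < r →
        μ {x | Real.sqrt (∑ i, ‖x i - x₀ i‖ ^ 2) < r} ≤ ENNReal.ofReal (C * h r)) ∧
      ¬ ∃ C : ℝ, ∀ (n : ℕ) (S : Finset (Fin d → ℤ)) (a : (Fin d → ℤ) → ℂ),
        (∀ k ∈ S, ∑ i, k i ^ 2 = (n : ℤ)) →
        ∫ x, ‖∑ k ∈ S, a k * UnitAddTorus.mFourier k x‖ ^ 2 ∂μ ≤
          C * ∫ x : Fin d → UnitAddCircle, ‖∑ k ∈ S, a k * UnitAddTorus.mFourier k x‖ ^ 2 := by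
  obtain ⟨r₁, hr₁0, hr₁⟩ := hA 1
  choose ν hνp hνreg n S hS hSn hνae using fun j : ℕ => one_scale d hd h r₁
    (fun r hr h1 => by
      have := hr₁ r hr h1
      rwa [le_div_iff₀ (by positivity), one_mul] at this) hA (4 ^ (j + 2))
  have hgeom : ∑' j : ℕ, (2⁻¹ : ℝ≥0∞) ^ (j + 1) = 1 := by
    rw [ENNReal.tsum_geometric_add_one, ENNReal.one_sub_inv_two, inv_inv]
    exact ENNReal.inv_mul_cancel (by norm_num) (by norm_num)
  let μ : Measure (Tor d) := Measure.sum fun j : ℕ => (2⁻¹ : ℝ≥0∞) ^ (j + 1) • ν j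
  have hμ : IsProbabilityMeasure μ := by
    constructor
    simp only [μ]
    rw [Measure.sum_apply _ MeasurableSet.univ]
    simp only [Measure.smul_apply, measure_univ, smul_eq_mul, mul_one]
    exact hgeom
  refine ⟨μ, hμ, ⟨6 ^ d + (h r₁)⁻¹, ?_⟩, ?_⟩
  · intro x₀ r hr
    have p1 := hpos r hr
    have p2 := hpos r₁ hr₁0
    rcases le_or_gt r₁ r with h1 | h1
    · refine le_trans prob_le_one ?_
      rw [← ENNReal.ofReal_one]
      apply ENNReal.ofReal_le_ofReal
      have h2 : h r₁ ≤ h r := hmono hr₁0 hr h1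
      have h3 : 1 ≤ (h r₁)⁻¹ * h r := by
        rw [inv_mul_eq_div, one_le_div p2]; exact h2
      have h4 : (0 : ℝ) ≤ 6 ^ d * h r := by positivity
      rw [add_mul]
      linarith
    refine le_trans (measure_mono (sub_ball x₀ hr)) ?_
    simp only [μ]
    rw [Measure.sum_apply _ measurableSet_closedBall]
    simp only [Measure.smul_apply, smul_eq_mul]
    calc ∑' j : ℕ, (2⁻¹ : ℝ≥0∞) ^ (j + 1) * ν j (closedBall x₀ r)
        ≤ ∑' j : ℕ, (2⁻¹ : ℝ≥0∞) ^ (j + 1) * ENNReal.ofReal (6 ^ d * h r) := by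
          gcongr with j
          exact hνreg j x₀ r hr h1
      _ = ENNReal.ofReal (6 ^ d * h r) := by
          rw [ENNReal.tsum_mul_right, hgeom, one_mul]
      _ ≤ _ := by
          apply ENNReal.ofReal_le_ofReal
          have h4 : (0 : ℝ) ≤ (h r₁)⁻¹ * h r := by positivity
          rw [add_mul]
          linarith
  · rintro ⟨C, hC⟩
    obtain ⟨j, hj⟩ := pow_unbounded_of_one_lt C (by norm_num : (1 : ℝ) < 2)
    have h1 := hC (n j) (S j) (fun _ => 1) (hSn j)
    simp only [one_mul] at h1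
    rw [integral_sq_sum, hS j] at h1
    let f : Tor d → ℝ := fun x => ‖∑ k ∈ S j, UnitAddTorus.mFourier k x‖ ^ 2
    have hf : Continuous f := by
      apply Continuous.pow
      apply Continuous.norm
      exact continuous_finsetSum _ fun k _ => (UnitAddTorus.mFourier k).continuous
    have hfi : ∀ (ρ : Measure (Tor d)) [IsFiniteMeasure ρ], Integrable f ρ := fun ρ _ =>
      hf.integrable_of_hasCompactSupport (HasCompactSupport.of_compactSpace _)
    have h2 : ∫ x, f x ∂((2⁻¹ : ℝ≥0∞) ^ (j + 1) • ν j) ≤ ∫ x, f x ∂μ :=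
      integral_mono_measure (Measure.le_sum (fun j : ℕ => (2⁻¹ : ℝ≥0∞) ^ (j + 1) • ν j) j)
        (Filter.Eventually.of_forall fun x => by simp only [f]; positivity) (hfi μ)
    have := hνp j
    have h3 : (((4 ^ (j + 2) : ℕ) : ℝ) / 2) ^ 2 ≤ ∫ x, f x ∂(ν j) := by
      have h4 : ∫ _ : Tor d, (((4 ^ (j + 2) : ℕ) : ℝ) / 2) ^ 2 ∂(ν j) ≤ ∫ x, f x ∂(ν j) := by
        apply integral_mono_ae (integrable_const _) (hfi _)
        filter_upwards [hνae j] with z hz
        simp only [f]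
        gcongr
      simpa using h4
    rw [integral_smul_measure] at h2
    simp only [ENNReal.toReal_pow, ENNReal.toReal_inv, ENNReal.toReal_ofNat, smul_eq_mul] at h2
    have h5 : (2⁻¹ : ℝ) ^ (j + 1) * (((4 ^ (j + 2) : ℕ) : ℝ) / 2) ^ 2 ≤
        C * ((4 ^ (j + 2) : ℕ) : ℝ) := by
      refine le_trans ?_ (le_trans h2 h1)
      gcongr
    push_cast at h5
    have h6 : (4 : ℝ) ^ (j + 2) = 16 * (2 ^ j) ^ 2 := by
      rw [pow_add, ← pow_mul, mul_comm j 2, pow_mul]
      norm_num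
      ring
    have h7 : (2⁻¹ : ℝ) ^ (j + 1) = (2 * 2 ^ j)⁻¹ := by
      rw [inv_pow, pow_succ, mul_comm]
    rw [h6, h7] at h5
    have hp : (0 : ℝ) < 2 ^ j := by positivity
    generalize (2 : ℝ) ^ j = t at h5 hj hp
    have h8 : (2 * t)⁻¹ * (16 * t ^ 2 / 2) ^ 2 = 2 * t * (16 * t ^ 2) := by
      field_simp
      ring
    rw [h8] at h5
    have h9 : 2 * t ≤ C := le_of_mul_le_mul_right h5 (by positivity)
    linarith

/-- Balls of mass at most a constant times their volume at arbitrarily small radii bound all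
integrals of continuous functions. -/
theorem dominated {d : ℕ} (μ : Measure (Tor d)) [IsProbabilityMeasure μ] {A : ℝ} (hA : 0 < A)
    (hb : ∀ δ : ℝ, 0 < δ → ∃ ρ, 0 < ρ ∧ ρ < δ ∧
      ∀ z : Tor d, μ (closedBall z ρ) ≤ ENNReal.ofReal (A * (2 * ρ) ^ d))
    {f : Tor d → ℝ} (hf : Continuous f) (h0 : ∀ x, 0 ≤ f x) :
    ∫ x, f x ∂μ ≤ A * ∫ x, f x := by
  have hfi : ∀ (ν : Measure (Tor d)) [IsFiniteMeasure ν], Integrable f ν := fun ν _ =>
    hf.integrable_of_hasCompactSupport (HasCompactSupport.of_compactSpace _)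
  have key : ∀ ε : ℝ, 0 < ε → ∫ x, f x ∂μ ≤ A * ((∫ x, f x) + ε) := by
    intro ε hε
    obtain ⟨δ, hδ, hu⟩ := Metric.uniformContinuous_iff.1
      (CompactSpace.uniformContinuous_of_continuous hf) ε hε
    obtain ⟨ρ, hρ, hρδ, hρb⟩ := hb (min δ (1 / 2)) (lt_min hδ (by norm_num))
    have hρ1 : ρ < δ := hρδ.trans_le (min_le_left _ _)
    have hρ2 : 2 * ρ ≤ 1 := by linarith [hρδ.trans_le (min_le_right _ _)]
    have hg : Measurable fun z : Tor d => ENNReal.ofReal (f z + ε) :=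
      (hf.measurable.add_const ε).ennreal_ofReal
    let G : Tor d → Tor d → ℝ≥0∞ := fun x z =>
      {p : Tor d × Tor d | dist p.2 p.1 ≤ ρ}.indicator (fun p => ENNReal.ofReal (f p.2 + ε)) (x, z)
    have hG : Measurable (Function.uncurry G) :=
      (hg.comp measurable_snd).indicator
        (isClosed_le (continuous_snd.dist continuous_fst) continuous_const).measurableSet
    have s1 : ∀ x, ENNReal.ofReal (f x) * ENNReal.ofReal ((2 * ρ) ^ d) ≤ ∫⁻ z, G x z := by
      intro x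
      rw [← vol_ball_eq x hρ.le hρ2, ← lintegral_indicator_const measurableSet_closedBall]
      refine lintegral_mono fun z => ?_
      by_cases hz : z ∈ closedBall x ρ
      · rw [Set.indicator_of_mem hz]
        simp only [G]
        rw [Set.indicator_of_mem (show (x, z) ∈ {p : Tor d × Tor d | dist p.2 p.1 ≤ ρ} from hz)]
        apply ENNReal.ofReal_le_ofReal
        have := hu ((mem_closedBall.1 hz).trans_lt hρ1)
        rw [Real.dist_eq, abs_lt] at this
        linarith [this.1]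
      · rw [Set.indicator_of_notMem hz]
        exact zero_le
    have s2 : ∀ z, ∫⁻ x, G x z ∂μ ≤
        ENNReal.ofReal (f z + ε) * ENNReal.ofReal (A * (2 * ρ) ^ d) := by
      intro z
      have e : (fun x => G x z) =
          (closedBall z ρ).indicator fun _ => ENNReal.ofReal (f z + ε) := by
        funext x
        by_cases hx : x ∈ closedBall z ρ
        · rw [Set.indicator_of_mem hx]
          exact Set.indicator_of_mem
            (show (x, z) ∈ {p : Tor d × Tor d | dist p.2 p.1 ≤ ρ} from mem_closedBall'.1 hx) _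
        · rw [Set.indicator_of_notMem hx]
          exact Set.indicator_of_notMem
            (show (x, z) ∉ {p : Tor d × Tor d | dist p.2 p.1 ≤ ρ} from
              fun h => hx (mem_closedBall'.2 h)) _
      rw [e, lintegral_indicator_const measurableSet_closedBall]
      gcongr
      exact hρb z
    have s3 : (∫⁻ x, ENNReal.ofReal (f x) ∂μ) * ENNReal.ofReal ((2 * ρ) ^ d) ≤
        (∫⁻ z, ENNReal.ofReal (f z + ε)) * ENNReal.ofReal (A * (2 * ρ) ^ d) := by
      rw [← lintegral_mul_const _ hf.measurable.ennreal_ofReal, ← lintegral_mul_const _ hg]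
      refine (lintegral_mono s1).trans ?_
      rw [lintegral_lintegral_swap hG.aemeasurable]
      exact lintegral_mono s2
    have i1 : 0 ≤ ∫ x, f x := integral_nonneg h0
    have e2 : ∫ z : Tor d, (f z + ε) = (∫ x, f x) + ε := by
      rw [integral_add (hfi _) (integrable_const _)]
      simp
    rw [← ofReal_integral_eq_lintegral_ofReal (hfi μ) (Filter.Eventually.of_forall h0),
      ← ofReal_integral_eq_lintegral_ofReal (f := fun z => f z + ε)
        ((hfi volume).add (integrable_const ε))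
        (Filter.Eventually.of_forall fun z => add_nonneg (h0 z) hε.le),
      ← ENNReal.ofReal_mul (integral_nonneg h0)] at s3
    rw [e2, ← ENNReal.ofReal_mul (by positivity),
      ENNReal.ofReal_le_ofReal_iff (by positivity)] at s3
    have hp : 0 < (2 * ρ) ^ d := by positivity
    refine le_of_mul_le_mul_right (s3.trans_eq ?_) hp
    ring
  refine le_of_forall_pos_le_add fun ε hε => ?_
  have := key (ε / A) (by positivity)
  rwa [mul_add, mul_div_cancel₀ _ hA.ne'] at this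

end Pool.Agent.FS.Gauge22
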